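import Pool.Agent.H61.KV.TG

/-!
# Module BIP of the board kv_modules: the bipolar theorem
-/

set_option autoImplicit false

namespace Pool.Agent.H50.KV

open Pool.Agent.H61.KV

theorem pf_BIP : T_BIP := by
  intro V _ _ _ C a hC h
  by_contra ha
  have hconv : Convex ℝ C := by
    intro x hx y hy s t hs ht _
    exact hC.add _ (hC.smul s hs x hx) _ (hC.smul t ht y hy)
  obtain ⟨f, s, hf, hs⟩ := geometric_hahn_banach_closed_point hconv hC.closed ha
  have hs0 : 0 < s := by
    have := hf 0 hC.zero
    simpa using this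
  have hfneg : ∀ q ∈ C, f q ≤ 0 := by
    intro q hq
    by_contra hpos
    push Not at hpos
    have h1 := hf ((s / f q) • q) (hC.smul _ (div_nonneg hs0.le hpos.le) q hq)
    rw [map_smul, smul_eq_mul, div_mul_cancel₀ _ hpos.ne'] at h1
    exact lt_irrefl _ h1
  have hfa : 0 < f a := hs0.trans hs
  obtain ⟨e, he⟩ := hC.pos
  have hd : 0 < |e a| + 1 := by positivity
  set ε : ℝ := f a / (2 * (|e a| + 1)) with hε
  have hεpos : 0 < ε := by positivity
  have key := h (-(f : V →ₗ[ℝ] ℝ) + ε • e) (by
    intro t ht ht0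
    have h1 := hfneg t ht
    have h2 := he t ht ht0
    simp only [LinearMap.add_apply, LinearMap.neg_apply, LinearMap.smul_apply, smul_eq_mul,
      ContinuousLinearMap.coe_coe]
    have : 0 < ε * e t := mul_pos hεpos h2
    linarith)
  simp only [LinearMap.add_apply, LinearMap.neg_apply, LinearMap.smul_apply, smul_eq_mul,
    ContinuousLinearMap.coe_coe] at key
  have h3 : ε * e a ≤ ε * |e a| := mul_le_mul_of_nonneg_left (le_abs_self _) hεpos.le
  have h4 : ε * (|e a| + 1) = f a / 2 := by
    rw [hε]
    field_simp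
  nlinarith

end Pool.Agent.H50.KV
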